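import Pool.Agent.TH152.CV.Torus

/-!
MP_45e720_ag, Q1: maps from complex tori and hyperbolicity, for abelian covers of projective space.
-/

set_option autoImplicit false

namespace Pool.Agent.Results.MP_45e720_ag.AbelianCovers

open Pool.Agent.W602.Cov Pool.Agent.W602.Cov.Cover Pool.Agent.TH152.CV

/-- For all `n` and `q` there is a constant `R` with the following property. Let `X` be an abelian
cover of projective `n`-space, with the equations `y k ^ m k = ∏ i, ℓ i (x) ^ e k i` in a weighted
projective space, where `ℓ 1, …, ℓ q` are any linear forms and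
`n (n + 1) (n + 2) ∑ i, e k i < 2 m k` for all `k`. If every holomorphic map from a one-dimensional
complex torus to `X` is constant, then every entire curve in `X` is constant, `X` is algebraically
hyperbolic with the constant `R`, and all subvarieties of `X` of positive dimension are of general
type. -/
theorem result (n q : ℕ) : ∃ R : ℕ, 0 < R ∧ ∀ {r : ℕ} {X : Cover n q r}, Big X → X.Free →
    EllRigid X → (∀ x y, ¬ X.EntireCurve x y) ∧ AlgHyp R X ∧ AllGT X := by
  obtain ⟨R, hR, h⟩ := hyperbolic_tfae n q
  refine ⟨R, hR, fun {r X} hB hF hX => ?_⟩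
  have ht := h hB hF
  exact ⟨(ht.out 0 6).1 hX.no_split, (ht.out 0 1).1 hX.no_split, (ht.out 0 5).1 hX.no_split⟩

end Pool.Agent.Results.MP_45e720_ag.AbelianCovers
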