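import Mathlib
import Pool.Agent.TH182.TC.Cases

/-!
MP_45e720_ag, Q1 for entire curves given by linear differential equations: a projective variety
which receives no nonconstant holomorphic map from a complex torus contains no nonconstant entire
curve which is holonomic over the polynomials, over the polynomials in an exponential, or over
the doubly periodic functions.
-/

set_option autoImplicit false

namespace Pool.Agent.Results.MP_45e720_ag.HolonomicCurves

open MvPolynomial
open scoped LinearAlgebra.Projectivization
open Pool.Agent.TH182.TC

variable {N : ℕ} {ι : Type}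

/-- Every entire curve in `X = {F = 0}` which is holonomic over
(1) the polynomials in `z`, or
(2) the polynomials in `exp (c z)` for some complex number `c`, or
(3) the functions with periods `w1`, `w2` which are holomorphic on a domain `Ω` invariant under
translation by `w1` and `w2`, where `w1` and `w2` are linearly independent over the reals,
is constant. -/
def HolonomicRigid (F : ι → MvPolynomial (Fin (N + 1)) ℂ) : Prop :=
  ∀ f : ℂ → PS N, Holo f → (∀ z, OnX F (f z)) →
    (HolonomicOver Set.univ PolFun f ∨ (∃ c, HolonomicOver Set.univ (ExpFun c) f) ∨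
      ∃ (w1 w2 : ℂ) (Ω : Set ℂ), LinearIndependent ℝ ![w1, w2] ∧ IsOpen Ω ∧ IsPreconnected Ω ∧
        (∀ z ∈ Ω, z + w1 ∈ Ω ∧ z + w2 ∈ Ω) ∧ HolonomicOver Ω (PerFun w1 w2 Ω) f) →
    ∀ z w, f z = f w

/-- Let `X = {F = 0}` be a projective variety. If every holomorphic map from a complex torus to
`X` is constant, then every entire curve in `X` which is holonomic over the polynomials, over the
polynomials in an exponential function, or over doubly periodic functions is constant. The latter
property holds if and only if every holomorphic map from a one-dimensional complex torus to `X` is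
constant. -/
theorem result (F : ι → MvPolynomial (Fin (N + 1)) ℂ) (hF : ∀ i, ∃ d, (F i).IsHomogeneous d) :
    (TorusRigid F → HolonomicRigid F) ∧ (HolonomicRigid F ↔ EllipticRigid F) := by
  have key : EllipticRigid F → HolonomicRigid F := by
    rintro hX f hf hfX (h | ⟨c, h⟩ | ⟨w1, w2, Ω, hw, hΩ, hΩc, hinv, h⟩)
    · exact case_pol hF hX hf hfX h
    · exact case_exp hF hX hf hfX h
    · exact case_per hF hX hf hfX hΩ hΩc hw hinv h
  refine ⟨fun h => key h.elliptic, fun h => ?_, key⟩
  intro w1 w2 hw f hf hfX h1 h2
  obtain ⟨Ω, hΩ, hΩc, hinv, hol⟩ := elliptic_holonomic hf h1 h2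
  exact h f hf hfX (Or.inr (Or.inr ⟨w1, w2, Ω, hw, hΩ, hΩc, hinv, hol⟩))

end Pool.Agent.Results.MP_45e720_ag.HolonomicCurves
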