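import Pool.Agent.TH143.EL.Exa

/-!
# Maps from complex tori and entire curves given by linear differential equations

Let `X`, `Z` be complex projective algebraic sets. All nonconstant holomorphic maps from
one-dimensional complex tori to `X` have their image in `Z` if and only if this holds for all
nonconstant entire curves in `X` with homogeneous coordinates satisfying linear differential
equations over a differential ring of meromorphic functions of transcendence degree at most one.
-/

set_option autoImplicit false

namespace Pool.Agent.Results.MP_45e720_ag.LinearCurvesAndTori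

open Filter MvPolynomial
open scoped LinearAlgebra.Projectivization
open Pool.Agent.TH143.EL

variable {N : ℕ}

/-- The map `f` from the plane to the projective space has homogeneous coordinates which are
meromorphic functions on the plane, each of them satisfying a nontrivial linear differential
equation with coefficients in `B`. -/
def LinearCoordinates (B : Subalgebra ℂ (ℂ → ℂ)) (f : ℂ → ℙ ℂ (Fin (N + 1) → ℂ)) : Prop :=
  ∃ h : Fin (N + 1) → ℂ → ℂ, (∀ j, Meromorphic (h j)) ∧ (∀ j, LinB B (h j)) ∧
    ∀ᶠ z in codiscrete ℂ, Rep (f z) fun j => h j z

/-- All nonconstant entire curves in the projective algebraic set of `I` with such coordinates,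
for some differential ring `B` of meromorphic functions of transcendence degree at most one, have
their image in the projective algebraic set of `I'`. -/
def LinearCurvesIn (I I' : Ideal (MvPolynomial (Fin (N + 1)) ℂ)) : Prop :=
  ∀ B : Subalgebra ℂ (ℂ → ℂ), TrOne B → ∀ f : ℂ → ℙ ℂ (Fin (N + 1) → ℂ), HolMap f →
    LinearCoordinates B f → (∀ z, InV I (f z)) → (∃ z w, f z ≠ f w) → ∀ z, InV I' (f z)

theorem result (I I' : Ideal (MvPolynomial (Fin (N + 1)) ℂ)) :
    TorusMapsIn I I' ↔ LinearCurvesIn I I' := by
  constructor
  · rintro hT B hB f hf ⟨h, hm, hl, hr⟩ hI hnc
    exact main hT hB hf hm hl hr hI hnc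
  · intro hL ω₁ ω₂ hind f hf h1 h2 hI hnc
    exact hL (Ell ω₁ ω₂) (trOne_ell hind) f hf (torus_coords hind hf h1 h2) hI hnc

end Pool.Agent.Results.MP_45e720_ag.LinearCurvesAndTori
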