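import Mathlib
import Pool.Agent.TH182.TC.Core
import Pool.Agent.TH710.NW.Proj

/-!
MP_45e720_ag, Q1 for projective varieties given by nested sums of high powers of linear forms, or
of monomials.
-/

set_option autoImplicit false

namespace Pool.Agent.Results.MP_45e720_ag.NestedPowers

open MvPolynomial
open Pool.Agent.TH182.TC Pool.Agent.TH710.NW

variable {N : ℕ} {ι : Type}

/-- Every holomorphic map from the complex plane to `X = {F = 0}` is constant; such a map is given
by entire functions without common zeros as homogeneous coordinates. -/
def Brody (F : ι → MvPolynomial (Fin (N + 1)) ℂ) : Prop :=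
  ∀ f : ℂ → Fin (N + 1) → ℂ, Differentiable ℂ f → (∀ z, f z ≠ 0) →
    (∀ z i, eval (f z) (F i) = 0) → ∀ z w, ∃ c : ℂ, f z = c • f w

/-- Let `X` be a complex projective variety given by forms which are nested sums of few high powers
of linear forms, or by forms which are nested sums of few high powers of monomials. If every
holomorphic map from a complex torus to `X` is constant, or only every holomorphic map from a
one-dimensional complex torus, then every holomorphic map from the complex plane to `X` is
constant. -/
theorem result (F : ι → MvPolynomial (Fin (N + 1)) ℂ)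
    (hF : (∀ i, Tower (F i)) ∨ ∀ i, TowerM (F i) ∧ ∃ d, (F i).IsHomogeneous d) :
    (TorusRigid F → EllipticRigid F) ∧ (EllipticRigid F → Brody F) := by
  refine ⟨fun h => h.elliptic, fun hX => ?_⟩
  have hhom : ∀ i, ∃ d, (F i).IsHomogeneous d := by
    rcases hF with h | h
    · exact fun i => (h i).hom
    · exact fun i => (h i).2
  have hmap : ∀ p : MvPolynomial (Fin (N + 1)) ℂ, map (RingHom.id ℂ) p = p := fun p => map_id p
  have hev : ∀ (v : Fin (N + 1) → ℂ) (p : MvPolynomial (Fin (N + 1)) ℂ),
      eval₂ (RingHom.id ℂ) v p = eval v p := fun v p => rfl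
  have hnr : Pool.Agent.TH957.Lang.NoRationalCurve (RingHom.id ℂ) F := by
    intro Q hQ hQF s t
    obtain ⟨l, hl⟩ := hQ t
    refine ⟨(Q l).eval s / (Q l).eval t, funext fun j => ?_⟩
    have h1 := no_rational hhom hX Q hQ (fun t i => by rw [← hev]; exact hQF t i) s t j l
    rw [Pi.smul_apply, smul_eq_mul]
    field_simp
    linear_combination h1
  rcases hF with h | h
  · exact hyperbolic_of_tower (RingHom.id ℂ) F (fun i => by rw [hmap]; exact h i) hnr
  · exact hyperbolic_of_towerM (RingHom.id ℂ) F hhom (fun i => by rw [hmap]; exact (h i).1) hnr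

end Pool.Agent.Results.MP_45e720_ag.NestedPowers
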